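import Pool.Agent.H57.UlA

set_option autoImplicit false

namespace Pool.Agent.Results.MP_c06a36_lc.Small

open Set Cardinal MeasureTheory

theorem result (hc : (𝔠 : Cardinal.{0}) ≤ ℵ_ 2) (E : Type) [Group E] (hE : #E = 𝔠) :
    ∃ A : ℕ → Set E,
      (∃ m : @Measure E (MeasurableSpace.generateFrom (range A)), m univ = 1 ∧
        ∀ x, MeasurableSet[MeasurableSpace.generateFrom (range A)] {x} → m {x} = 0) ∧
      MeasurableSet[(MeasurableSpace.generateFrom (range A)).prod
        ((MeasurableSpace.generateFrom (range A)).prod (MeasurableSpace.generateFrom (range A)))]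
        {p : E × E × E | p.1 * p.2.1 = p.2.2} := by
  classical
  obtain ⟨F, C, z0, hF, hC, hcov⟩ := H57.Ul.comb E (hE ▸ aleph0_lt_continuum) (hE ▸ hc)
  obtain ⟨s0⟩ : Nonempty (ℝ ≃ F) := by
    rw [← Cardinal.eq, mk_real, hF, hE]
  obtain ⟨i⟩ : Nonempty (E ≃ ℝ) := by rw [← Cardinal.eq, mk_real, hE]
  let r : E → ℝ × ℝ := fun x => if h : x ∈ F then (s0.symm ⟨x, h⟩, 1) else (i x, 0)
  have hrF : ∀ x, x ∈ F ↔ (r x).2 = 1 := fun x => by
    by_cases h : x ∈ F <;> simp [r, h]
  have hr : Function.Injective r := by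
    intro x y hxy
    have h0 : x ∈ F ↔ y ∈ F := by rw [hrF, hrF, hxy]
    by_cases h : x ∈ F
    · have h' := h0.1 h
      simpa [r, h, h'] using hxy
    · have h' := mt h0.2 h
      simpa [r, h, h'] using hxy
  have hrs : ∀ t, r (s0 t) = (t, 1) := fun t => by simp [r]
  choose e0 he0 using fun w => ((hC w).insert 1).exists_eq_range (insert_nonempty _ _)
  let e : ℕ → E → E := fun n w => if w ∈ F then 1 else e0 w n
  have he : ∀ w u, (w ∉ F ∧ u ∈ C w) ∨ u = 1 → ∃ n, u = e n w := by
    intro w u h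
    by_cases hw : w ∈ F
    · rcases h with h | h
      exacts [absurd hw h.1, ⟨0, by simp [e, hw, h]⟩]
    · have : u ∈ insert 1 (C w) := by
        rcases h with h | h
        exacts [Or.inr h.2, Or.inl h]
      rw [he0] at this
      obtain ⟨n, rfl⟩ := this
      exact ⟨n, by simp [e, hw]⟩
  let g : ℕ × Fin 5 → E → E := fun k w =>
    ![w, e k.1 w, w * e k.1 w, e k.1 w * w, (e k.1 w)⁻¹ * w] k.2
  let φ : E → (ℕ × Fin 5 → ℝ × ℝ) := fun w k => r (g k w)
  letI B : MeasurableSpace E := MeasurableSpace.comap φ inferInstance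
  haveI : MeasurableSpace.CountablyGenerated E := MeasurableSpace.CountablyGenerated.comap φ
  have hφ : Measurable φ := comap_measurable φ
  have hg : ∀ k, Measurable fun w => r (g k w) := fun k => (measurable_pi_apply k).comp hφ
  have hr0 : Measurable r := hg (0, 0)
  refine ⟨MeasurableSpace.natGeneratingSequence E, ?_⟩
  rw [MeasurableSpace.generateFrom_natGeneratingSequence]
  constructor
  · have hs : Measurable fun t : ℝ => (s0 t : E) := by
      refine measurable_comap_iff.2 (measurable_pi_lambda _ fun k => ?_)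
      have h1 : Measurable fun t : ℝ => (t, (1 : ℝ)) := by fun_prop
      obtain ⟨n, k⟩ := k
      fin_cases k
      · simpa [φ, g, hrs] using h1
      · simp [φ, g, e]
      · simpa [φ, g, e, hrs] using h1
      · simpa [φ, g, e, hrs] using h1
      · simpa [φ, g, e, hrs] using h1
    refine ⟨Measure.map (fun t : ℝ => (s0 t : E)) (volume.restrict (Icc 0 1)), ?_, fun x hx => ?_⟩
    · rw [Measure.map_apply hs MeasurableSet.univ]; simp
    · rw [Measure.map_apply hs hx]
      refine Set.Subsingleton.measure_zero (fun a ha b hb => ?_) _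
      exact s0.injective (Subtype.ext (ha.trans hb.symm))
  · have key : {p : E × E × E | p.1 * p.2.1 = p.2.2} =
        (⋃ n, ({p : E × E × E | r p.2.1 = r (g (n, 1) p.1)} ∩ {p | r p.2.2 = r (g (n, 2) p.1)}) ∪
          ({p | r p.1 = r (g (n, 1) p.2.1)} ∩ {p | r p.2.2 = r (g (n, 3) p.2.1)}) ∪
          ({p | r p.1 = r (g (n, 1) p.2.2)} ∩ {p | r p.2.1 = r (g (n, 4) p.2.2)})) ∪
        ({p | r p.1 = r p.2.1} ∩ {p | (r p.1).2 = 1} ∩ {p | r p.2.2 = r z0} ∩
          {p | ∀ s ∈ F, s * s = z0}) := by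
      ext ⟨x, y, z⟩
      simp only [mem_setOf_eq, mem_union, mem_iUnion, mem_inter_iff, hr.eq_iff, ← hrF, g,
        Matrix.cons_val]
      constructor
      · rintro rfl
        rcases hcov x y with h | h | h | h | h | h
        · obtain ⟨n, hn⟩ := he x y (Or.inl h)
          exact Or.inl ⟨n, Or.inl (Or.inl ⟨hn, by rw [← hn]⟩)⟩
        · obtain ⟨n, hn⟩ := he y x (Or.inl h)
          exact Or.inl ⟨n, Or.inl (Or.inr ⟨hn, by rw [← hn]⟩)⟩
        · obtain ⟨n, hn⟩ := he _ x (Or.inl h)
          exact Or.inl ⟨n, Or.inr ⟨hn, by rw [← hn]; simp⟩⟩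
        · obtain ⟨n, hn⟩ := he x y (Or.inr h)
          exact Or.inl ⟨n, Or.inl (Or.inl ⟨hn, by rw [← hn]⟩)⟩
        · obtain ⟨n, hn⟩ := he y x (Or.inr h)
          exact Or.inl ⟨n, Or.inl (Or.inr ⟨hn, by rw [← hn]⟩)⟩
        · obtain ⟨rfl, h2, h3⟩ := h
          exact Or.inr ⟨⟨⟨rfl, h2⟩, h3 x h2⟩, h3⟩
      · rintro (⟨n, (⟨h1, h2⟩ | ⟨h1, h2⟩) | ⟨h1, h2⟩⟩ | ⟨⟨⟨h1, h2⟩, h3⟩, h4⟩)
        · rw [h2, ← h1]
        · rw [h2, ← h1]
        · rw [h2, ← h1]; simp
        · rw [← h1, h3]; exact h4 x h2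
    rw [key]
    have m1 : Measurable fun p : E × E × E => p.1 := measurable_fst
    have m2 : Measurable fun p : E × E × E => p.2.1 := measurable_fst.comp measurable_snd
    have m3 : Measurable fun p : E × E × E => p.2.2 := measurable_snd.comp measurable_snd
    refine (MeasurableSet.iUnion fun n => ((MeasurableSet.inter ?_ ?_).union
      (MeasurableSet.inter ?_ ?_)).union (MeasurableSet.inter ?_ ?_)).union
      (((MeasurableSet.inter ?_ ?_).inter ?_).inter (MeasurableSet.const _))
    · exact measurableSet_eq_fun (hr0.comp m2) ((hg _).comp m1)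
    · exact measurableSet_eq_fun (hr0.comp m3) ((hg _).comp m1)
    · exact measurableSet_eq_fun (hr0.comp m1) ((hg _).comp m2)
    · exact measurableSet_eq_fun (hr0.comp m3) ((hg _).comp m2)
    · exact measurableSet_eq_fun (hr0.comp m1) ((hg _).comp m3)
    · exact measurableSet_eq_fun (hr0.comp m2) ((hg _).comp m3)
    · exact measurableSet_eq_fun (hr0.comp m1) (hr0.comp m2)
    · exact measurableSet_eq_fun (measurable_snd.comp (hr0.comp m1)) measurable_const
    · exact measurableSet_eq_fun (hr0.comp m3) measurable_const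

end Pool.Agent.Results.MP_c06a36_lc.Small
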